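import Pool.Agent.Y566.MO.Stm

/-!
Project MO: the order of a tree of chains.
-/

set_option autoImplicit false

namespace Pool.Agent.Y566.MO

variable {V X : Type}

/-- the perimeters are even -/
def EV (d : V → V → ℕ) : Prop := ∀ u v w, (d u v + d v w + d w u) % 2 = 0

/-! ### Facts on the metric -/

theorem TM.tri {d : V → V → ℕ} (h : TM d) (x y u : V) : d x y ≤ d x u + d u y := by
  have h1 := h.four u u x y
  have h2 := (h.zero u u).2 rfl
  have h3 := h.symm y u
  omega

theorem Btw.symm {d : V → V → ℕ} (h : TM d) {u w v : V} (hb : Btw d u w v) : Btw d v w u := by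
  obtain ⟨h1, h2, h3⟩ := hb
  refine ⟨?_, h3, h2⟩
  rw [h.symm v u, h.symm v w, h.symm w u]
  omega

theorem Btw.pos {d : V → V → ℕ} (h : TM d) {u w v : V} (hb : Btw d u w v) :
    0 < d u w ∧ 0 < d w v ∧ d u v = d u w + d w v := by
  obtain ⟨h1, h2, h3⟩ := hb
  refine ⟨?_, ?_, h1⟩
  · exact Nat.pos_of_ne_zero fun e => h2 ((h.zero u w).1 e).symm
  · exact Nat.pos_of_ne_zero fun e => h3 ((h.zero w v).1 e)

/-! ### The recursion -/

section Rec

variable (d : V → V → ℕ) (p : X → V) (s : V → V → Prop) (E : X → X → Prop)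

/-- the order, with a bound for the distance -/
def Lf : ℕ → X → X → Prop
  | 0, a, b => E a b
  | n + 1, a, b => (d (p a) (p b) ≤ 1 ∧ E a b) ∨ (2 ≤ d (p a) (p b) ∧
      ((∃ c, Btw d (p a) (p c) (p b) ∧ Lf n a c ∧ Lf n c b) ∨
        (s (p a) (p b) ∧ ¬ ∃ c, Btw d (p a) (p c) (p b) ∧ Lf n b c ∧ Lf n c a)))

variable {d}

theorem Lf_near (n : ℕ) {a b : X} (h : d (p a) (p b) ≤ 1) : Lf d p s E n a b ↔ E a b := by
  cases n with
  | zero => exact Iff.rfl
  | succ n =>
    unfold Lf
    constructor
    · rintro (⟨-, h1⟩ | ⟨h1, -⟩)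
      · exact h1
      · omega
    · exact fun h1 => Or.inl ⟨h, h1⟩

theorem Lf_stab (hd : TM d) : ∀ k : ℕ, ∀ a b : X, d (p a) (p b) ≤ k → ∀ n, k ≤ n →
    (Lf d p s E n a b ↔ Lf d p s E k a b) := by
  intro k
  induction k with
  | zero =>
    intro a b h n _
    rw [Lf_near p s E n (by omega), Lf_near p s E 0 (by omega)]
  | succ k ih =>
    intro a b h n hn
    by_cases h1 : d (p a) (p b) ≤ 1
    · rw [Lf_near p s E n h1, Lf_near p s E (k + 1) h1]
    · obtain ⟨n, rfl⟩ : ∃ m, n = m + 1 := ⟨n - 1, by omega⟩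
      have key : ∀ c, Btw d (p a) (p c) (p b) →
          (Lf d p s E n a c ↔ Lf d p s E k a c) ∧ (Lf d p s E n c b ↔ Lf d p s E k c b) ∧
          (Lf d p s E n b c ↔ Lf d p s E k b c) ∧ (Lf d p s E n c a ↔ Lf d p s E k c a) := by
        intro c hc
        obtain ⟨h2, h3, h4⟩ := hc.pos hd
        have h5 := hd.symm (p b) (p c)
        have h6 := hd.symm (p c) (p a)
        exact ⟨ih a c (by omega) n (by omega), ih c b (by omega) n (by omega),
          ih b c (by omega) n (by omega), ih c a (by omega) n (by omega)⟩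
      unfold Lf
      refine or_congr Iff.rfl (and_congr Iff.rfl (or_congr ?_ (and_congr Iff.rfl (not_congr ?_))))
      · refine exists_congr fun c => and_congr_right fun hc => ?_
        rw [(key c hc).1, (key c hc).2.1]
      · refine exists_congr fun c => and_congr_right fun hc => ?_
        rw [(key c hc).2.2.1, (key c hc).2.2.2]

/-- existence of a relation with the tie rule -/
theorem exists_TR (hd : TM d) : ∃ L, TR d p s E L := by
  refine ⟨fun a b => Lf d p s E (d (p a) (p b)) a b, fun a b h => Lf_near p s E _ h, ?_⟩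
  intro a b h
  obtain ⟨k, hk⟩ : ∃ k, d (p a) (p b) = k + 1 := ⟨d (p a) (p b) - 1, by omega⟩
  have key : ∀ c, Btw d (p a) (p c) (p b) →
      (Lf d p s E k a c ↔ Lf d p s E (d (p a) (p c)) a c) ∧
      (Lf d p s E k c b ↔ Lf d p s E (d (p c) (p b)) c b) ∧
      (Lf d p s E k b c ↔ Lf d p s E (d (p b) (p c)) b c) ∧
      (Lf d p s E k c a ↔ Lf d p s E (d (p c) (p a)) c a) := by
    intro c hc
    obtain ⟨h2, h3, h4⟩ := hc.pos hd
    have h5 := hd.symm (p b) (p c)
    have h6 := hd.symm (p c) (p a)
    exact ⟨Lf_stab p s E hd _ a c le_rfl k (by omega),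
      Lf_stab p s E hd _ c b le_rfl k (by omega),
      Lf_stab p s E hd _ b c le_rfl k (by omega), Lf_stab p s E hd _ c a le_rfl k (by omega)⟩
  show Lf d p s E (d (p a) (p b)) a b ↔ _
  rw [hk]
  have e1 : (∃ c, Btw d (p a) (p c) (p b) ∧ Lf d p s E k a c ∧ Lf d p s E k c b) ↔
      ∃ c, Btw d (p a) (p c) (p b) ∧ Lf d p s E (d (p a) (p c)) a c ∧
        Lf d p s E (d (p c) (p b)) c b :=
    exists_congr fun c => and_congr_right fun hc => by rw [(key c hc).1, (key c hc).2.1]
  have e2 : (∃ c, Btw d (p a) (p c) (p b) ∧ Lf d p s E k b c ∧ Lf d p s E k c a) ↔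
      ∃ c, Btw d (p a) (p c) (p b) ∧ Lf d p s E (d (p b) (p c)) b c ∧
        Lf d p s E (d (p c) (p a)) c a :=
    exists_congr fun c => and_congr_right fun hc => by rw [(key c hc).2.2.1, (key c hc).2.2.2]
  rw [← e1, ← e2]
  conv_lhs => unfold Lf
  constructor
  · rintro (⟨h1, -⟩ | ⟨-, h1⟩)
    · omega
    · exact h1
  · exact fun h1 => Or.inr ⟨h, h1⟩

end Rec

/-- MO-UN -/
theorem t_UN : S_UN := by
  intro V X d p s E L L' hd hL hL'
  have key : ∀ k : ℕ, ∀ a b, d (p a) (p b) ≤ k → (L a b ↔ L' a b) := by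
    intro k
    induction k with
    | zero =>
      intro a b h
      rw [hL.near a b (by omega), hL'.near a b (by omega)]
    | succ k ih =>
      intro a b h
      by_cases h1 : d (p a) (p b) ≤ 1
      · rw [hL.near a b h1, hL'.near a b h1]
      · rw [hL.far a b (by omega), hL'.far a b (by omega)]
        have key2 : ∀ c, Btw d (p a) (p c) (p b) →
            (L a c ↔ L' a c) ∧ (L c b ↔ L' c b) ∧ (L b c ↔ L' b c) ∧ (L c a ↔ L' c a) := by
          intro c hc
          obtain ⟨h2, h3, h4⟩ := hc.pos hd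
          have h5 := hd.symm (p b) (p c)
          have h6 := hd.symm (p c) (p a)
          exact ⟨ih a c (by omega), ih c b (by omega), ih b c (by omega), ih c a (by omega)⟩
        refine or_congr ?_ (and_congr Iff.rfl (not_congr ?_))
        · refine exists_congr fun c => and_congr_right fun hc => ?_
          rw [(key2 c hc).1, (key2 c hc).2.1]
        · refine exists_congr fun c => and_congr_right fun hc => ?_
          rw [(key2 c hc).2.2.1, (key2 c hc).2.2.2]
  exact fun a b => key _ a b le_rfl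

/-! ### The relation is a linear order -/

section Lin

variable {d : V → V → ℕ} {p : X → V} {s : V → V → Prop} {E L : X → X → Prop}

/-- separated by a point of a chain strictly between -/
def Sp (d : V → V → ℕ) (p : X → V) (L : X → X → Prop) (a b : X) : Prop :=
  ∃ c, Btw d (p a) (p c) (p b) ∧ L a c ∧ L c b

theorem TR.far' (hd : TM d) (hL : TR d p s E L) {a b : X} (h : 2 ≤ d (p a) (p b)) :
    L a b ↔ Sp d p L a b ∨ (s (p a) (p b) ∧ ¬ Sp d p L b a) := by
  rw [hL.far a b h]
  refine or_congr Iff.rfl (and_congr Iff.rfl (not_congr ?_))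
  exact exists_congr fun c => and_congr_left fun _ => ⟨fun h => h.symm hd, fun h => h.symm hd⟩

theorem lin (hd : TM d) (hev : EV d) (hs : SG d s) (hE : BD d p E) (hL : TR d p s E L) :
    ∀ N : ℕ, (∀ a b, a ≠ b → 2 * d (p a) (p b) ≤ N → (L a b ↔ ¬ L b a)) ∧
      ∀ a b c, d (p a) (p b) + d (p b) (p c) + d (p c) (p a) ≤ N → L a b → L b c → ¬ L c a := by
  intro N
  induction N using Nat.strong_induction_on with
  | _ N ih =>
  have ihA : ∀ a b, a ≠ b → 2 * d (p a) (p b) < N → (L a b ↔ ¬ L b a) :=
    fun a b h h1 => (ih (2 * d (p a) (p b)) h1).1 a b h le_rfl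
  have ihT : ∀ a b c, d (p a) (p b) + d (p b) (p c) + d (p c) (p a) < N → L a b → L b c →
      ¬ L c a := fun a b c h => (ih _ h).2 a b c le_rfl
  have irr : ∀ a, ¬ L a a := by
    intro a h
    have h0 := (hd.zero (p a) (p a)).2 rfl
    exact hE.irr a ((hL.near a a (by omega)).1 h)
  -- totality and antisymmetry
  have A : ∀ a b, a ≠ b → 2 * d (p a) (p b) ≤ N → (L a b ↔ ¬ L b a) := by
    intro a b hab hN
    by_cases h1 : d (p a) (p b) ≤ 1
    · rw [hL.near a b h1, hL.near b a (by rw [hd.symm]; exact h1)]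
      exact hE.anti a b h1 hab
    · have h2 : 2 ≤ d (p a) (p b) := by omega
      have h3 : 2 ≤ d (p b) (p a) := by rw [hd.symm]; exact h2
      have hne : p a ≠ p b := by
        intro e
        have := (hd.zero (p a) (p b)).2 e
        omega
      rw [hL.far' hd h2, hL.far' hd h3]
      have hx : ¬ (Sp d p L a b ∧ Sp d p L b a) := by
        rintro ⟨⟨c, hc, h4, h5⟩, ⟨c', hc', h6, h7⟩⟩
        obtain ⟨q1, q2, q3⟩ := hc.pos hd
        obtain ⟨q4, q5, q6⟩ := hc'.pos hd
        have f1 := hd.four (p a) (p b) (p c) (p c')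
        have f2 := hd.symm (p a) (p b)
        have f3 := hd.symm (p c) (p a)
        have f4 := hd.symm (p c') (p b)
        have f5 := hd.symm (p c) (p c')
        have f6 := hd.symm (p c') (p a)
        have f7 := hd.symm (p c) (p b)
        have t1 : ¬ L c c' := ihT c' a c (by omega) h7 h4
        have t2 : ¬ L c' c := ihT c b c' (by omega) h5 h6
        by_cases e : c = c'
        · subst e
          have hca : c ≠ a := fun e => hc.2.1 (by rw [e])
          have := ihA c a hca (by omega)
          exact this.1 h7 h4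
        · have := ihA c c' e (by omega)
          exact t1 (this.2 t2)
      have hsa := hs.anti _ _ hne
      tauto
  refine ⟨A, ?_⟩
  -- two points in the same chain
  have T1 : ∀ a b c, p a = p b → d (p a) (p b) + d (p b) (p c) + d (p c) (p a) ≤ N → L a b →
      L b c → ¬ L c a := by
    intro a b c hab hN h1 h2 h3
    have z := (hd.zero (p a) (p b)).2 hab
    have f1 := hd.symm (p c) (p a)
    have f2 : d (p b) (p c) = d (p a) (p c) := by rw [hab]
    have f3 := hd.symm (p b) (p c)
    by_cases hn : d (p a) (p c) ≤ 1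
    · exact hE.acyc a b c (by omega) (by omega) (by omega) ((hL.near a b (by omega)).1 h1)
        ((hL.near b c (by omega)).1 h2) ((hL.near c a (by omega)).1 h3)
    · have hac : a ≠ c := by
        intro e
        have := (hd.zero (p a) (p c)).2 (by rw [e])
        omega
      have hbc : b ≠ c := by
        intro e
        have := (hd.zero (p b) (p c)).2 (by rw [e])
        omega
      have A1 := A a c hac (by omega)
      have A2 := A b c hbc (by omega)
      have h2' := (hL.far' hd (by omega)).1 h2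
      have h3' := (hL.far' hd (by omega)).1 h3
      rcases h2' with ⟨y, hy, h4, h5⟩ | ⟨h4, -⟩
      · obtain ⟨q1, q2, q3⟩ := hy.pos hd
        have g1 : d (p y) (p a) = d (p b) (p y) := by rw [hd.symm (p y) (p a), hab]
        have t1 : ¬ L y a := ihT a b y (by omega) h1 h4
        have hya : a ≠ y := by
          rintro rfl
          exact hy.2.1 hab
        have g2 := hd.symm (p a) (p y)
        have t2 : L a y := (ihA a y hya (by omega)).2 t1
        have t3 : L a c := (hL.far' hd (by omega)).2 (Or.inl ⟨y, by rw [hab]; exact hy, t2, h5⟩)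
        exact (A1.1 t3) h3
      · rcases h3' with ⟨y, hy, h5, h6⟩ | ⟨h5, -⟩
        · obtain ⟨q1, q2, q3⟩ := hy.pos hd
          have g1 : d (p y) (p a) = d (p y) (p b) := by rw [hab]
          have g2 := hd.symm (p y) (p b)
          have t1 : ¬ L b y := ihT y a b (by omega) h6 h1
          have hyb : y ≠ b := by
            rintro rfl
            exact hy.2.2 hab.symm
          have t2 : L y b := (ihA y b hyb (by omega)).2 t1
          have t3 : L c b := (hL.far' hd (by omega)).2
            (Or.inl ⟨y, by rw [← hab]; exact hy, h5, t2⟩)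
          exact (A2.1 h2) t3
        · have hne : p b ≠ p c := by
            intro e
            have := (hd.zero (p b) (p c)).2 e
            omega
          rw [hab] at h5
          exact (hs.anti _ _ hne).1 h4 h5
  -- the chain of `b` is between the others
  have T2 : ∀ a b c, p a ≠ p b → p b ≠ p c → d (p a) (p c) = d (p a) (p b) + d (p b) (p c) →
      d (p a) (p b) + d (p b) (p c) + d (p c) (p a) ≤ N → L a b → L b c → ¬ L c a := by
    intro a b c hab hbc he hN h1 h2
    have hB : Btw d (p a) (p b) (p c) := ⟨he, fun e => hab e.symm, hbc⟩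
    obtain ⟨q1, q2, q3⟩ := hB.pos hd
    have f1 := hd.symm (p c) (p a)
    have hac : a ≠ c := by
      intro e
      have := (hd.zero (p a) (p c)).2 (by rw [e])
      omega
    exact (A a c hac (by omega)).1 ((hL.far' hd (by omega)).2 (Or.inl ⟨b, hB, h1, h2⟩))
  -- no separation in a tripod
  have T3 : ∀ a b c, d (p a) (p b) < d (p a) (p c) + d (p c) (p b) →
      d (p b) (p c) < d (p b) (p a) + d (p a) (p c) →
      d (p a) (p c) < d (p a) (p b) + d (p b) (p c) →
      d (p a) (p b) + d (p b) (p c) + d (p c) (p a) ≤ N → L a b → L b c → L c a →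
      2 ≤ d (p a) (p b) ∧ s (p a) (p b) := by
    intro a b c s1 s2 s3 hN h1 h2 h3
    have f1 := hd.symm (p c) (p a)
    have f2 := hd.symm (p c) (p b)
    have f3 := hd.symm (p b) (p a)
    have e1 := hev (p a) (p b) (p c)
    have h4 : 2 ≤ d (p a) (p b) := by omega
    refine ⟨h4, ?_⟩
    rcases (hL.far' hd h4).1 h1 with ⟨y, hy, h5, h6⟩ | ⟨h5, -⟩
    · exfalso
      obtain ⟨q1, q2, q3⟩ := hy.pos hd
      have g1 := hd.four (p a) (p b) (p y) (p c)
      have g2 := hd.symm (p y) (p a)
      have g3 := hd.symm (p y) (p c)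
      have g4 := hd.symm (p y) (p b)
      have g5 := hd.tri (p y) (p c) (p a)
      have g6 := hd.tri (p y) (p c) (p b)
      have t1 : ¬ L c y := ihT y b c (by omega) h6 h2
      have hyc : y ≠ c := by
        rintro rfl
        omega
      have t2 : L y c := (ihA y c hyc (by omega)).2 t1
      exact ihT a y c (by omega) h5 t2 h3
    · exact h5
  intro a b c hN h1 h2 h3
  have f1 := hd.symm (p c) (p a)
  have f2 := hd.symm (p c) (p b)
  have f3 := hd.symm (p b) (p a)
  by_cases e1 : p a = p b
  · exact T1 a b c e1 hN h1 h2 h3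
  by_cases e2 : p b = p c
  · exact T1 b c a e2 (by omega) h2 h3 h1
  by_cases e3 : p c = p a
  · exact T1 c a b e3 (by omega) h3 h1 h2
  by_cases b1 : d (p a) (p c) = d (p a) (p b) + d (p b) (p c)
  · exact T2 a b c e1 e2 b1 hN h1 h2 h3
  by_cases b2 : d (p b) (p a) = d (p b) (p c) + d (p c) (p a)
  · exact T2 b c a e2 e3 b2 (by omega) h2 h3 h1
  by_cases b3 : d (p c) (p b) = d (p c) (p a) + d (p a) (p b)
  · exact T2 c a b e3 e1 b3 (by omega) h3 h1 h2
  have g1 := hd.tri (p a) (p b) (p c)
  have g2 := hd.tri (p b) (p c) (p a)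
  have g3 := hd.tri (p a) (p c) (p b)
  obtain ⟨-, r1⟩ := T3 a b c (by omega) (by omega) (by omega) hN h1 h2 h3
  obtain ⟨-, r2⟩ := T3 b c a (by omega) (by omega) (by omega) (by omega) h2 h3 h1
  obtain ⟨-, r3⟩ := T3 c a b (by omega) (by omega) (by omega) (by omega) h3 h1 h2
  exact hs.acyc (p a) (p b) (p c) (by omega) (by omega) (by omega) r1 r2 r3

end Lin

/-- MO-AM, with even perimeters -/
theorem t_AM (d : V → V → ℕ) (p : X → V) (s : V → V → Prop) (E : X → X → Prop)
    (hd : TM d) (hev : EV d) (hs : SG d s) (hE : BD d p E) :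
    ∃ L, TR d p s E L ∧ (∀ a, ¬ L a a) ∧ (∀ a b c, L a b → L b c → L a c) ∧
      ∀ a b, a ≠ b → L a b ∨ L b a := by
  obtain ⟨L, hL⟩ := exists_TR p s E hd
  have hA : ∀ a b, a ≠ b → (L a b ↔ ¬ L b a) := fun a b h =>
    (lin hd hev hs hE hL (2 * d (p a) (p b))).1 a b h le_rfl
  have irr : ∀ a, ¬ L a a := by
    intro a h
    have h0 := (hd.zero (p a) (p a)).2 rfl
    exact hE.irr a ((hL.near a a (by omega)).1 h)
  refine ⟨L, hL, irr, ?_, ?_⟩
  · intro a b c h1 h2
    have hT : ¬ L c a := (lin hd hev hs hE hL _).2 a b c le_rfl h1 h2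
    by_cases e : a = c
    · subst e
      by_cases e' : a = b
      · subst e'
        exact absurd h1 (irr a)
      · exact absurd h2 ((hA a b e').1 h1)
    · exact (hA a c e).2 hT
  · intro a b h
    by_cases h1 : L a b
    · exact Or.inl h1
    · exact Or.inr ((hA b a (Ne.symm h)).2 h1)

end Pool.Agent.Y566.MO
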