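import Pool.Agent.Y566.MO.Stm
import Pool.Agent.Y560.TG.PL

/-!
Project MO: (by helper21) measurability of the reduct and of the class of codes.
-/

set_option autoImplicit false

namespace Pool.Agent.Y566.MO.Me

open Set MeasureTheory
open Pool.Agent.H566P (XG Isom)
open Pool.Agent.Y560.TH (c_1 c_2 c_3 m_1 m_2 m_3)
open Pool.Agent.Y566.MO

instance cntG : Countable G := by
  have h : Function.Injective (fun g : G => g.toWord) := FreeGroup.toWord_injective
  exact h.countable

/-- replace terms by values -/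
theorem m_sub {Ω : Type} [MeasurableSpace Ω] (t : Ω → ℕ) (ht : ∀ n, Measurable fun ω => t ω = n)
    (p : ℕ → Ω → Prop) (hp : ∀ n, Measurable (p n)) : Measurable fun ω => p (t ω) ω := by
  have e : (fun ω => p (t ω) ω) = fun ω => ∃ n, t ω = n ∧ p n ω := by
    funext ω
    exact propext ⟨fun h => ⟨_, rfl, h⟩, fun ⟨n, h1, h2⟩ => h1 ▸ h2⟩
  rw [e]
  exact Measurable.exists fun n => (ht n).and (hp n)

theorem m_r (m : ℕ) (δ : G) (n : ℕ) : Measurable fun y : XG G => y.1 m (y.2.1 δ n) = true :=
  m_sub (fun y : XG G => y.2.1 δ n) (m_2 δ n) (fun w y => y.1 m w = true) (fun w => m_1 m w)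

theorem m_l (δ : G) (m n : ℕ) : Measurable fun y : XG G => y.1 (y.2.1 δ m) n = true :=
  m_sub (fun y : XG G => y.2.1 δ m) (m_2 δ m) (fun w y => y.1 w n = true) (fun w => m_1 w n)

theorem m_lr (γ : G) (m : ℕ) (δ : G) (n : ℕ) :
    Measurable fun y : XG G => y.1 (y.2.1 γ m) (y.2.1 δ n) = true :=
  m_sub (fun y : XG G => y.2.1 γ m) (m_2 γ m) (fun w y => y.1 w (y.2.1 δ n) = true)
    (fun w => m_r w δ n)

theorem m_mul (γ δ : G) (m : ℕ) :
    Measurable fun y : XG G => y.2.1 (γ * δ) m = y.2.1 γ (y.2.1 δ m) :=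
  m_sub (fun y : XG G => y.2.1 δ m) (m_2 δ m) (fun w y => y.2.1 (γ * δ) m = y.2.1 γ w)
    (fun w => m_sub (fun y : XG G => y.2.1 γ w) (m_2 γ w) (fun v y => y.2.1 (γ * δ) m = v)
      (fun v => m_2 _ _ v))

theorem m_en (n k : ℕ) : Measurable fun y : XG G => en y n = k :=
  Pool.Agent.Y560.TG.PL.meas_nth (fun (y : XG G) m => y.2.2 0 m = true) (fun m => m_3 0 m) n k

theorem m_b (f : XG G → Bool) (h : Measurable fun y => f y = true) : Measurable f := by
  refine measurable_to_bool ?_
  exact measurableSet_setOfPred.2 h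

theorem meas_rd : Measurable rd := by
  refine Measurable.prodMk ?_ (Measurable.prodMk ?_ ?_)
  · refine measurable_pi_lambda _ fun m => measurable_pi_lambda _ fun n => m_b _ ?_
    exact m_sub (fun y : XG G => en y m) (m_en m) (fun w y => y.1 w (en y n) = true)
      (fun w => m_sub (fun y : XG G => en y n) (m_en n) (fun v y => y.1 w v = true)
        (fun v => m_1 w v))
  · refine measurable_pi_lambda _ fun i => measurable_pi_lambda _ fun m =>
      measurable_pi_lambda _ fun n => m_b _ ?_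
    exact m_sub (fun y : XG G => en y m) (m_en m)
      (fun w y => y.1 w (y.2.1 (FreeGroup.of i) (en y n)) = true)
      (fun w => m_sub (fun y : XG G => en y n) (m_en n)
        (fun v y => y.1 w (y.2.1 (FreeGroup.of i) v) = true) (fun v => m_r w _ v))
  · refine measurable_pi_lambda _ fun i => measurable_pi_lambda _ fun m => m_b _ ?_
    exact m_sub (fun y : XG G => en y m) (m_en m) (fun w y => y.2.2 (i + 1) w = true)
      (fun w => m_3 (i + 1) w)

theorem m_irr (m : ℕ) : Measurable fun y : XG G => y.1 m m = false :=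
  measurableSet_setOfPred.1 (c_1 m m (measurableSet_singleton false))

theorem inf_iff (p : ℕ → Prop) : {m | p m}.Infinite ↔ ∀ k, ∃ m, k < m ∧ p m := by
  constructor
  · intro h k
    obtain ⟨m, hm, hk⟩ := h.exists_gt k
    exact ⟨m, hk, hm⟩
  · intro h
    exact Set.infinite_of_forall_exists_gt fun k => by
      obtain ⟨m, hk, hm⟩ := h k
      exact ⟨m, hm, hk⟩

theorem m_inf : Measurable fun y : XG G => {m | y.2.2 0 m = true}.Infinite := by
  have e : (fun y : XG G => {m | y.2.2 0 m = true}.Infinite) =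
      fun y => ∀ k, ∃ m, k < m ∧ y.2.2 0 m = true := by
    funext y
    exact propext (inf_iff _)
  rw [e]
  exact Measurable.forall fun k => Measurable.exists fun m => measurable_const.and (m_3 0 m)

theorem m_tie (s : G → G → Prop) (γ : G) (u v : ℕ) : Measurable fun y : XG G =>
    (y.1 u (y.2.1 γ v) = true ↔
      (∃ δ w, Btw dG 1 δ γ ∧ y.2.2 0 w = true ∧ y.1 u (y.2.1 δ w) = true ∧
        y.1 (y.2.1 δ w) (y.2.1 γ v) = true) ∨
      (s 1 γ ∧ ¬ ∃ δ w, Btw dG 1 δ γ ∧ y.2.2 0 w = true ∧ y.1 (y.2.1 γ v) (y.2.1 δ w) = true ∧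
        y.1 (y.2.1 δ w) u = true)) := by
  refine Measurable.iff (m_r u γ v) (Measurable.or ?_ ?_)
  · exact Measurable.exists fun δ => Measurable.exists fun w => measurable_const.and
      ((m_3 0 w).and ((m_r u δ w).and (m_lr δ w γ v)))
  · exact measurable_const.and (Measurable.exists fun δ => Measurable.exists fun w =>
      measurable_const.and ((m_3 0 w).and ((m_lr γ v δ w).and (m_l δ w u)))).not

theorem meas_CD (s : G → G → Prop) : MeasurableSet {y : XG G | CD s y} := by
  have e : {y : XG G | CD s y} = {y : XG G | (∀ m, y.1 m m = false) ∧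
      (∀ m n k, y.1 m n = true → y.1 n k = true → y.1 m k = true) ∧
      (∀ m n, m ≠ n → y.1 m n = true ∨ y.1 n m = true) ∧
      (∀ m, y.2.1 1 m = m) ∧
      (∀ γ δ m, y.2.1 (γ * δ) m = y.2.1 γ (y.2.1 δ m)) ∧
      (∀ γ m n, chi γ = 1 → y.1 m n = true → y.1 (y.2.1 γ m) (y.2.1 γ n) = true) ∧
      (∀ γ m n, chi γ = -1 → y.1 m n = true → y.1 (y.2.1 γ n) (y.2.1 γ m) = true) ∧
      {m | y.2.2 0 m = true}.Infinite ∧
      (∀ m, ∃ γ u, y.2.2 0 u = true ∧ y.2.1 γ u = m) ∧
      (∀ γ u v, y.2.2 0 u = true → y.2.2 0 v = true → y.2.1 γ u = v → γ = 1) ∧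
      (∀ i m, y.2.2 (i + 1) m = true → y.2.2 0 m = true) ∧
      (∀ γ u v, y.2.2 0 u = true → y.2.2 0 v = true → 2 ≤ dG 1 γ →
        (y.1 u (y.2.1 γ v) = true ↔
          (∃ δ w, Btw dG 1 δ γ ∧ y.2.2 0 w = true ∧ y.1 u (y.2.1 δ w) = true ∧
            y.1 (y.2.1 δ w) (y.2.1 γ v) = true) ∨
          (s 1 γ ∧ ¬ ∃ δ w, Btw dG 1 δ γ ∧ y.2.2 0 w = true ∧
            y.1 (y.2.1 γ v) (y.2.1 δ w) = true ∧ y.1 (y.2.1 δ w) u = true)))} := by
    ext y
    constructor
    · intro h
      exact ⟨h.irr, h.tr, h.tot, h.one, h.mul, h.pos, h.neg, h.inf, h.dom, h.free, h.pred, h.tie⟩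
    · rintro ⟨h1, h2, h3, h4, h5, h6, h7, h8, h9, h10, h11, h12⟩
      exact ⟨h1, h2, h3, h4, h5, h6, h7, h8, h9, h10, h11, h12⟩
  rw [e]
  refine measurableSet_setOfPred.2 ?_
  refine (Measurable.forall fun m => m_irr m).and ?_
  refine (Measurable.forall fun m => Measurable.forall fun n => Measurable.forall fun k =>
    (m_1 m n).imp ((m_1 n k).imp (m_1 m k))).and ?_
  refine (Measurable.forall fun m => Measurable.forall fun n =>
    measurable_const.imp ((m_1 m n).or (m_1 n m))).and ?_
  refine (Measurable.forall fun m => m_2 1 m m).and ?_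
  refine (Measurable.forall fun γ => Measurable.forall fun δ => Measurable.forall fun m =>
    m_mul γ δ m).and ?_
  refine (Measurable.forall fun γ => Measurable.forall fun m => Measurable.forall fun n =>
    measurable_const.imp ((m_1 m n).imp (m_lr γ m γ n))).and ?_
  refine (Measurable.forall fun γ => Measurable.forall fun m => Measurable.forall fun n =>
    measurable_const.imp ((m_1 m n).imp (m_lr γ n γ m))).and ?_
  refine m_inf.and ?_
  refine (Measurable.forall fun m => Measurable.exists fun γ => Measurable.exists fun u =>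
    (m_3 0 u).and (m_2 γ u m)).and ?_
  refine (Measurable.forall fun γ => Measurable.forall fun u => Measurable.forall fun v =>
    (m_3 0 u).imp ((m_3 0 v).imp ((m_2 γ u v).imp measurable_const))).and ?_
  refine (Measurable.forall fun i => Measurable.forall fun m =>
    (m_3 (i + 1) m).imp (m_3 0 m)).and ?_
  exact Measurable.forall fun γ => Measurable.forall fun u => Measurable.forall fun v =>
    (m_3 0 u).imp ((m_3 0 v).imp (measurable_const.imp (m_tie s γ u v)))

theorem t_MEAS : S_MEAS := ⟨meas_rd, meas_CD⟩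

end Pool.Agent.Y566.MO.Me
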