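import Pool.Agent.Y566.MO.RX

/-!
Project MO: existence of a code, the code.
-/

set_option autoImplicit false

namespace Pool.Agent.Y566.MO

open Pool.Agent.H566P (XG Isom)

open Classical in
/-- the code given by an order of `G × ℕ` -/
noncomputable def cd (e : G × ℕ ≃ ℕ) (L : G × ℕ → G × ℕ → Prop) (x : Z) : XG G :=
  (fun m n => decide (L (e.symm m) (e.symm n)),
    fun γ m => e (γ * (e.symm m).1, (e.symm m).2),
    fun i m => if i = 0 then decide ((e.symm m).1 = 1) else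
      decide ((e.symm m).1 = 1) && x.2.2 (i - 1) (e.symm m).2)

theorem cd_lt (e : G × ℕ ≃ ℕ) (L : G × ℕ → G × ℕ → Prop) (x : Z) (a b : G × ℕ) :
    (cd e L x).1 (e a) (e b) = true ↔ L a b := by
  unfold cd
  simp

theorem cd_act (e : G × ℕ ≃ ℕ) (L : G × ℕ → G × ℕ → Prop) (x : Z) (γ : G) (a : G × ℕ) :
    (cd e L x).2.1 γ (e a) = e (γ * a.1, a.2) := by
  unfold cd
  simp

theorem cd_dom (e : G × ℕ ≃ ℕ) (L : G × ℕ → G × ℕ → Prop) (x : Z) (a : G × ℕ) :
    (cd e L x).2.2 0 (e a) = true ↔ a.1 = 1 := by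
  unfold cd
  simp

theorem cd_pred (e : G × ℕ ≃ ℕ) (L : G × ℕ → G × ℕ → Prop) (x : Z) (i : ℕ) (a : G × ℕ) :
    (cd e L x).2.2 (i + 1) (e a) = true ↔ a.1 = 1 ∧ x.2.2 i a.2 = true := by
  unfold cd
  simp

theorem sur (e : G × ℕ ≃ ℕ) (m : ℕ) : ∃ a, m = e a := ⟨e.symm m, (e.apply_symm_apply m).symm⟩

/-- MO-RX -/
theorem t_RX (hF : S_FM) : S_RX := by
  intro s hs hs1 hs2 x hx
  obtain ⟨L, hL, hirr, htr, htot⟩ := t_AM dG (Prod.fst : G × ℕ → G) s (EE x) hF.1 ev_dG hs
    (BD_EE hF hx)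
  obtain ⟨hden⟩ := nonempty_denumerable (G × ℕ)
  let e : G × ℕ ≃ ℕ := Denumerable.eqv (G × ℕ)
  have hequi := L_equi hF.1 hs1 hs2 hL
  have hinf : {m | (cd e L x).2.2 0 m = true}.Infinite := by
    refine Set.infinite_of_injective_forall_mem (f := fun n : ℕ => e (1, n)) ?_ ?_
    · intro m n h
      have := e.injective h
      exact (Prod.mk.inj this).2
    · intro n
      exact (cd_dom e L x (1, n)).2 rfl
  have hdom : ∀ m, (cd e L x).2.2 0 m = true → ∃ n, m = e (1, n) := by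
    intro m hm
    obtain ⟨⟨u, a⟩, rfl⟩ := sur e m
    have h1 : u = 1 := (cd_dom e L x (u, a)).1 hm
    exact ⟨a, by rw [h1]⟩
  have hCD : CD s (cd e L x) := by
    refine ⟨?_, ?_, ?_, ?_, ?_, ?_, ?_, hinf, ?_, ?_, ?_, ?_⟩
    · intro m
      obtain ⟨a, rfl⟩ := sur e m
      rw [Bool.eq_false_iff]
      intro h
      exact hirr a ((cd_lt e L x a a).1 h)
    · intro m n k
      obtain ⟨a, rfl⟩ := sur e m
      obtain ⟨b, rfl⟩ := sur e n
      obtain ⟨c, rfl⟩ := sur e k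
      rw [cd_lt, cd_lt, cd_lt]
      exact htr a b c
    · intro m n
      obtain ⟨a, rfl⟩ := sur e m
      obtain ⟨b, rfl⟩ := sur e n
      rw [cd_lt, cd_lt]
      exact fun h => htot a b fun h' => h (by rw [h'])
    · intro m
      obtain ⟨a, rfl⟩ := sur e m
      rw [cd_act, one_mul]
    · intro γ δ m
      obtain ⟨a, rfl⟩ := sur e m
      rw [cd_act, cd_act, cd_act, mul_assoc]
    · intro γ m n hγ
      obtain ⟨a, rfl⟩ := sur e m
      obtain ⟨b, rfl⟩ := sur e n
      rw [cd_act, cd_act, cd_lt, cd_lt]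
      exact fun h => ((hequi γ a b).1 hγ).2 h
    · intro γ m n hγ
      obtain ⟨a, rfl⟩ := sur e m
      obtain ⟨b, rfl⟩ := sur e n
      rw [cd_act, cd_act, cd_lt, cd_lt]
      exact fun h => ((hequi γ a b).2 hγ).2 h
    · intro m
      obtain ⟨⟨u, a⟩, rfl⟩ := sur e m
      refine ⟨u, e (1, a), (cd_dom e L x _).2 rfl, ?_⟩
      rw [cd_act, mul_one]
    · intro γ u v hu hv
      obtain ⟨a, rfl⟩ := hdom u hu
      obtain ⟨b, rfl⟩ := hdom v hv
      rw [cd_act]
      intro h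
      have := (Prod.mk.inj (e.injective h)).1
      rwa [mul_one] at this
    · intro i m
      obtain ⟨a, rfl⟩ := sur e m
      rw [cd_pred, cd_dom]
      exact fun h => h.1
    · intro γ u v hu hv hγ
      obtain ⟨a, rfl⟩ := hdom u hu
      obtain ⟨b, rfl⟩ := hdom v hv
      rw [cd_act, mul_one, cd_lt, hL.far (1, a) (γ, b) hγ]
      refine or_congr ?_ (and_congr Iff.rfl (not_congr ?_))
      · constructor
        · rintro ⟨⟨δ, c⟩, h1, h2, h3⟩
          refine ⟨δ, e (1, c), h1, (cd_dom e L x _).2 rfl, ?_⟩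
          rw [cd_act, mul_one, cd_lt, cd_lt]
          exact ⟨h2, h3⟩
        · rintro ⟨δ, w, h1, h2, h3, h4⟩
          obtain ⟨c, rfl⟩ := hdom w h2
          rw [cd_act, mul_one, cd_lt] at h3 h4
          exact ⟨(δ, c), h1, h3, h4⟩
      · constructor
        · rintro ⟨⟨δ, c⟩, h1, h2, h3⟩
          refine ⟨δ, e (1, c), h1, (cd_dom e L x _).2 rfl, ?_⟩
          rw [cd_act, mul_one, cd_lt, cd_lt]
          exact ⟨h2, h3⟩
        · rintro ⟨δ, w, h1, h2, h3, h4⟩
          obtain ⟨c, rfl⟩ := hdom w h2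
          rw [cd_act, mul_one, cd_lt] at h3 h4
          exact ⟨(δ, c), h1, h3, h4⟩
  refine ⟨cd e L x, hCD, ?_⟩
  -- the enumeration of the fundamental domain
  have hen : ∀ n, ∃ k, en (cd e L x) n = e (1, k) := fun n =>
    hdom _ (Nat.nth_mem_of_infinite hinf n)
  choose t ht using hen
  have tinj : Function.Injective t := by
    intro m n h
    have h1 : en (cd e L x) m = en (cd e L x) n := by rw [ht, ht, h]
    exact Nat.nth_injective hinf h1
  have tsur : Function.Surjective t := by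
    intro k
    have h1 : e (1, k) ∈ Set.range (Nat.nth fun m => (cd e L x).2.2 0 m = true) := by
      rw [Nat.range_nth_of_infinite hinf]
      exact (cd_dom e L x (1, k)).2 rfl
    obtain ⟨n, hn⟩ := h1
    refine ⟨n, ?_⟩
    have h2 : e (1, t n) = e (1, k) := by rw [← ht, ← hn]; rfl
    exact (Prod.mk.inj (e.injective h2)).2
  refine ⟨Equiv.ofBijective t ⟨tinj, tsur⟩, ?_, ?_, ?_⟩
  · intro m n
    show x.1 (t m) (t n) = (cd e L x).1 (en _ m) (en _ n)
    rw [ht, ht, Bool.eq_iff_iff, cd_lt, hL.near _ _ (by rw [(hF.1.zero _ _).2 rfl]; omega),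
      EE_same]
    simp only [map_one, true_and, one_ne_neg, false_and, or_false]
  · intro i m n
    show x.2.1 i (t m) (t n) = (cd e L x).1 (en _ m) ((cd e L x).2.1 (FreeGroup.of i) (en _ n))
    rw [ht, ht, cd_act, mul_one, Bool.eq_iff_iff, cd_lt]
    have h1 : dG 1 (FreeGroup.of i) = 1 := (hF.2.2 _).2 ⟨i, Or.inl rfl⟩
    rw [hL.near _ _ (le_of_eq h1)]
    have h2 := EE_up (x := x) (u := 1) (i := i) (a := t m) (b := t n)
    rw [one_mul] at h2
    rw [h2]
    simp only [map_one, true_iff]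
  · intro i m
    show x.2.2 i (t m) = (cd e L x).2.2 (i + 1) (en _ m)
    rw [ht, Bool.eq_iff_iff, cd_pred]
    simp

end Pool.Agent.Y566.MO
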