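import Pool.Agent.Y566.MO.PM
import Pool.Agent.Y566.MO.Meas
import Pool.Agent.Y566.MO.RX2
import Pool.Agent.Y468.MO.FM
import Pool.Agent.Y528.MO.Enc
import Pool.Agent.Y550.MO.Ri
import Pool.Agent.Y429.MO.FS
import Pool.Agent.Y815.TH.Loc
import Pool.Agent.Y287.TH.Rev
import Pool.Agent.Y560.TF.All

/-!
Project MO: assembly.
-/

set_option autoImplicit false

namespace Pool.Agent.Y566.MO

/-- linear orders with a group action by monotone and antitone bijections -/
theorem s_REV : Pool.Agent.Y560.TH.S_REV :=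
  Pool.Agent.Y287.TH.t_REV (Pool.Agent.Y815.TH.t_LOC (fun Δ _ _ => Pool.Agent.Y560.TF.out Δ))

theorem s_MONO : S_MONO :=
  t_MONO s_REV Pool.Agent.Y429.MO.FS.t_FS Pool.Agent.Y566.MO.Me.t_MEAS
    (Pool.Agent.Y550.MO.Ri.t_RI Pool.Agent.Y468.MO.t_FM)
    (t_RX Pool.Agent.Y468.MO.t_FM)

/-- The theorem on countably many monotone relations. -/
theorem s_CMONO : S_CMONO := Pool.Agent.Y528.MO.t_ENC s_MONO

/-- The theorem on countably many piecewise monotone relations. -/
theorem s_PMONO : S_PMONO := t_PMONO s_CMONO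

end Pool.Agent.Y566.MO
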