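import Pool.Agent.Y566.MO.Stm
import Pool.Agent.H31R3.AL.Transfer

/-!
Project MO: the theorem for structures in normal form, from the theorem on linear orders with a
group action.
-/

set_option autoImplicit false

namespace Pool.Agent.Y566.MO

open Set MeasureTheory
open Pool.Agent.H566P (XG Isom)
open Pool.Agent.Y560.TH (RV S_REV)

theorem isoZ_symm {σ : Equiv.Perm ℕ} {x y : Z} (h : IsoZ σ x y) : IsoZ σ.symm y x := by
  obtain ⟨h1, h2, h3⟩ := h
  refine ⟨fun m n => ?_, fun i m n => ?_, fun i m => ?_⟩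
  · rw [← h1, σ.apply_symm_apply, σ.apply_symm_apply]
  · rw [← h2, σ.apply_symm_apply, σ.apply_symm_apply]
  · rw [← h3, σ.apply_symm_apply]

theorem isoZ_trans {σ τ : Equiv.Perm ℕ} {x y z : Z} (h : IsoZ σ x y) (h' : IsoZ τ y z) :
    IsoZ (σ.trans τ) x z :=
  ⟨fun m n => (h'.1 _ _).trans (h.1 m n), fun i m n => (h'.2.1 i _ _).trans (h.2.1 i m n),
    fun i m => (h'.2.2 i _).trans (h.2.2 i m)⟩

theorem isom_symm {σ : Equiv.Perm ℕ} {x y : XG G} (h : Isom σ x y) : Isom σ.symm y x := by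
  obtain ⟨h1, h2, h3⟩ := h
  refine ⟨fun m n => ?_, fun γ m => ?_, fun i m => ?_⟩
  · rw [← h1, σ.apply_symm_apply, σ.apply_symm_apply]
  · have := h2 γ (σ.symm m)
    rw [σ.apply_symm_apply] at this
    rw [this, σ.symm_apply_apply]
  · rw [← h3, σ.apply_symm_apply]

theorem rv_of {s : G → G → Prop} {y : XG G} (h : CD s y) : RV y where
  irr := h.irr
  tr := h.tr
  tot := h.tot
  one := h.one
  mul := h.mul
  mono := fun γ => by
    rcases Int.units_eq_one_or (chi γ) with h1 | h1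
    · exact Or.inl fun m n hm => h.pos γ m n h1 hm
    · exact Or.inr fun m n hm => h.neg γ m n h1 hm

instance bsZ : BorelSpace Z := by
  have h1 : BorelSpace (ℕ → ℕ → Bool) := inferInstance
  have h2 : BorelSpace (ℕ → ℕ → ℕ → Bool) := inferInstance
  have h3 : BorelSpace ((ℕ → ℕ → ℕ → Bool) × (ℕ → ℕ → Bool)) := Prod.borelSpace
  exact Prod.borelSpace

instance bsX : BorelSpace (XG G) := by
  have h1 : BorelSpace (ℕ → ℕ → Bool) := inferInstance
  have h2 : BorelSpace (G → ℕ → ℕ) := inferInstance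
  have h3 : BorelSpace ((G → ℕ → ℕ) × (ℕ → ℕ → Bool)) := Prod.borelSpace
  exact Prod.borelSpace

/-- the theorem for structures in normal form -/
theorem t_MONO (hR : S_REV) (hS : S_FS) (hM : S_MEAS) (hI : S_RI) (hX : S_RX) : S_MONO := by
  intro B hB hBM hBI
  obtain ⟨s, hs1, hs2, hs3⟩ := hS
  have hG : Countable G := inferInstance
  have hA : MeasurableSet {y : XG G | CD s y ∧ rd y ∈ B} :=
    (hM.2 s).inter (hM.1 hB)
  have hAR : ∀ y ∈ {y : XG G | CD s y ∧ rd y ∈ B}, RV y := fun y hy => rv_of hy.1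
  have hAI : ∀ y ∈ {y : XG G | CD s y ∧ rd y ∈ B}, ∀ (y' : XG G) (σ : Equiv.Perm ℕ),
      Isom σ y y' → y' ∈ {y : XG G | CD s y ∧ rd y ∈ B} := by
    intro y hy y' σ hσ
    obtain ⟨h1, τ, hτ⟩ := hI.1 s y y' σ hy.1 hσ
    exact ⟨h1, hBI _ hy.2 _ τ hτ⟩
  rcases hR G {y : XG G | CD s y ∧ rd y ∈ B} hA hAR hAI with ⟨f, hf⟩ | ⟨c, hc, hcA, hci⟩
  · left
    refine ⟨fun n => rd (f n), fun x hx => ?_⟩
    obtain ⟨y, hy, τ, hτ⟩ := hX s hs1 hs2 hs3 x (hBM x hx)
    have hyB : rd y ∈ B := hBI x hx _ τ.symm (isoZ_symm hτ)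
    obtain ⟨n, σ, hσ⟩ := hf y ⟨hy, hyB⟩
    obtain ⟨_, τ', hτ'⟩ := hI.1 s y (f n) σ.symm hy (isom_symm hσ)
    exact ⟨n, τ'.symm.trans τ, isoZ_trans (isoZ_symm hτ') hτ⟩
  · right
    have hme : Measurable fun a => rd (c a) := hM.1.comp hc.measurable
    obtain ⟨h', h1', h2'⟩ := Pool.Agent.H31R3.AL.cont_of_borel (fun a => rd (c a)) hme
    refine ⟨_, h2', fun a => (hcA _).2, fun a b hab => ?_⟩
    apply h1'
    obtain ⟨τ, hτ⟩ := hab
    exact hci _ _ (hI.2 s _ _ τ (hcA _).1 (hcA _).1 hτ)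

end Pool.Agent.Y566.MO
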