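import Pool.Agent.Y566.MO.FIN

/-!
Project MO: relations which are monotone on the boxes of a family of pieces.
-/

set_option autoImplicit false

namespace Pool.Agent.Y566.MO

open Set MeasureTheory

/-- the pieces: the whole set and the unary predicates -/
def Pc (x : Z) (j a : ℕ) : Prop := j = 0 ∨ x.2.2 (j - 1) a = true

/-- the order or its reverse -/
def lt' (x : Z) (δ : Bool) (a b : ℕ) : Prop := x.1 (bif δ then a else b) (bif δ then b else a) = true

/-- the relation `x.2.1 i` is monotone, with directions `δ` and `ε`, on the pieces `j` and `k` -/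
def Mo (x : Z) (i j k : ℕ) (δ ε : Bool) : Prop :=
  (∀ a b c, Pc x j a → Pc x j b → Pc x k c → lt' x δ a b → x.2.1 i a c = true →
    x.2.1 i b c = true) ∧
  (∀ a b c, Pc x k a → Pc x k b → Pc x j c → lt' x ε a b → x.2.1 i c a = true →
    x.2.1 i c b = true)

/-- linear orders with piecewise monotone relations -/
structure PM (x : Z) : Prop where
  irr : ∀ m, x.1 m m = false
  tr : ∀ m n k, x.1 m n = true → x.1 n k = true → x.1 m k = true
  tot : ∀ m n, m ≠ n → x.1 m n = true ∨ x.1 n m = true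
  pm : ∀ i a b, ∃ j k δ ε, Pc x j a ∧ Pc x k b ∧ Mo x i j k δ ε

/-- the theorem -/
def S_PMONO : Prop := ∀ B : Set Z, MeasurableSet B → (∀ x ∈ B, PM x) →
  (∀ x ∈ B, ∀ (y : Z) (σ : Equiv.Perm ℕ), IsoZ σ x y → y ∈ B) →
  (∃ f : ℕ → Z, ∀ x ∈ B, ∃ n, ∃ σ : Equiv.Perm ℕ, IsoZ σ (f n) x) ∨
  (∃ c : (ℕ → Bool) → Z, Continuous c ∧ (∀ A, c A ∈ B) ∧
    ∀ A A', (∃ σ : Equiv.Perm ℕ, IsoZ σ (c A) (c A')) → A = A')

/-- the index type -/
abbrev Q5 : Type := (ℕ × ℕ × ℕ) × Bool × Bool

/-- the numbering of the indices -/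
noncomputable def qe : Q5 ≃ ℕ := by
  have h : Infinite Q5 := Prod.infinite_of_left
  exact (nonempty_equiv_of_countable (α := Q5) (β := ℕ)).some

/-- the monotone closure -/
def Rm (x : Z) (q : Q5) (a b : ℕ) : Prop :=
  Mo x q.1.1 q.1.2.1 q.1.2.2 q.2.1 q.2.2 ∧ ∃ a' b', Pc x q.1.2.1 a' ∧ Pc x q.1.2.2 b' ∧
    x.2.1 q.1.1 a' b' = true ∧ (a' = a ∨ lt' x q.2.1 a' a) ∧ (b' = b ∨ lt' x q.2.2 b' b)

open Classical in
/-- coding -/
noncomputable def Em (x : Z) : Z :=
  (x.1, fun n a b => decide (Rm x (qe.symm n) a b), x.2.2)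

/-- decoding -/
def Dr (y : Z) (i a b : ℕ) : Prop :=
  ∃ (j k : ℕ) (δ ε : Bool), Pc y j a ∧ Pc y k b ∧
    y.2.1 (qe ((i, j, k), δ, ε)) a b = true

open Classical in
/-- decoding -/
noncomputable def Dm (y : Z) : Z := (y.1, fun i a b => decide (Dr y i a b), y.2.2)

open Classical in
theorem em_iff (x : Z) (q : Q5) (a b : ℕ) :
    (Em x).2.1 (qe q) a b = true ↔ Rm x q a b := by
  show decide (Rm x (qe.symm (qe q)) a b) = true ↔ _
  rw [Equiv.symm_apply_apply, decide_eq_true_iff]

theorem rm_self {x : Z} {i j k : ℕ} {δ ε : Bool} (h : Mo x i j k δ ε) {a b : ℕ}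
    (ha : Pc x j a) (hb : Pc x k b) : Rm x ((i, j, k), δ, ε) a b ↔ x.2.1 i a b = true := by
  constructor
  · rintro ⟨-, a', b', ha', hb', hr, h1, h2⟩
    have h3 : x.2.1 i a b' = true := by
      rcases h1 with h1 | h1
      · subst h1; exact hr
      · exact h.1 a' a b' ha' ha hb' h1 hr
    rcases h2 with h2 | h2
    · subst h2; exact h3
    · exact h.2 b' b a hb' hb ha h2 h3
  · intro hr
    exact ⟨h, a, b, ha, hb, hr, Or.inl rfl, Or.inl rfl⟩

open Classical in
theorem dm_em {x : Z} (h : PM x) : Dm (Em x) = x := by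
  refine Prod.ext rfl (Prod.ext ?_ rfl)
  funext i a b
  rw [Bool.eq_iff_iff]
  show decide (Dr (Em x) i a b) = true ↔ _
  rw [decide_eq_true_iff]
  constructor
  · rintro ⟨j, k, δ, ε, ha, hb, hr⟩
    rw [em_iff] at hr
    exact (rm_self hr.1 ha hb).1 hr
  · intro hr
    obtain ⟨j, k, δ, ε, ha, hb, hm⟩ := h.pm i a b
    exact ⟨j, k, δ, ε, ha, hb, (em_iff x _ a b).2 ((rm_self hm ha hb).2 hr)⟩

open Classical in
theorem cm_em {x : Z} (h : PM x) : CM (Em x) where
  irr := h.irr
  tr := h.tr
  tot := h.tot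
  fst := fun n => by
    have key : ∀ a b c, lt' x (qe.symm n).2.1 a b →
        (Em x).2.1 n a c = true → (Em x).2.1 n b c = true := by
      intro a b c hab
      show decide (Rm x (qe.symm n) a c) = true →
        decide (Rm x (qe.symm n) b c) = true
      rw [decide_eq_true_iff, decide_eq_true_iff]
      rintro ⟨hm, a', c', ha', hc', hr, h1, h2⟩
      refine ⟨hm, a', c', ha', hc', hr, Or.inr ?_, h2⟩
      rcases h1 with h1 | h1
      · subst h1; exact hab
      · revert hab h1
        cases (qe.symm n).2.1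
        · exact fun hab h1 => h.tr _ _ _ hab h1
        · exact fun hab h1 => h.tr _ _ _ h1 hab
    revert key
    cases (qe.symm n).2.1
    · exact fun key => Or.inr fun a b c hab => key b a c hab
    · exact fun key => Or.inl fun a b c hab => key a b c hab
  snd := fun n => by
    have key : ∀ a b c, lt' x (qe.symm n).2.2 a b →
        (Em x).2.1 n c a = true → (Em x).2.1 n c b = true := by
      intro a b c hab
      show decide (Rm x (qe.symm n) c a) = true →
        decide (Rm x (qe.symm n) c b) = true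
      rw [decide_eq_true_iff, decide_eq_true_iff]
      rintro ⟨hm, c', a', hc', ha', hr, h1, h2⟩
      refine ⟨hm, c', a', hc', ha', hr, h1, Or.inr ?_⟩
      rcases h2 with h2 | h2
      · subst h2; exact hab
      · revert hab h2
        cases (qe.symm n).2.2
        · exact fun hab h1 => h.tr _ _ _ hab h1
        · exact fun hab h1 => h.tr _ _ _ h1 hab
    revert key
    cases (qe.symm n).2.2
    · exact fun key => Or.inr fun a b c hab => key c b a hab
    · exact fun key => Or.inl fun a b c hab => key b c a hab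

/-! ### Invariance -/

theorem pc_iso {σ : Equiv.Perm ℕ} {x y : Z} (h : IsoZ σ x y) (j a : ℕ) :
    Pc y j (σ a) ↔ Pc x j a := by
  unfold Pc
  rw [h.2.2]

theorem lt_iso {σ : Equiv.Perm ℕ} {x y : Z} (h : IsoZ σ x y) (δ : Bool) (a b : ℕ) :
    lt' y δ (σ a) (σ b) ↔ lt' x δ a b := by
  unfold lt'
  cases δ
  · show y.1 (σ b) (σ a) = true ↔ x.1 b a = true
    rw [h.1]
  · show y.1 (σ a) (σ b) = true ↔ x.1 a b = true
    rw [h.1]

theorem mo_iso {σ : Equiv.Perm ℕ} {x y : Z} (h : IsoZ σ x y) (i j k : ℕ) (δ ε : Bool) :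
    Mo y i j k δ ε ↔ Mo x i j k δ ε := by
  unfold Mo
  refine and_congr ?_ ?_
  · rw [σ.surjective.forall₃]
    simp only [pc_iso h, lt_iso h, h.2.1]
  · rw [σ.surjective.forall₃]
    simp only [pc_iso h, lt_iso h, h.2.1]

theorem rm_iso {σ : Equiv.Perm ℕ} {x y : Z} (h : IsoZ σ x y) (q : Q5) (a b : ℕ) :
    Rm y q (σ a) (σ b) ↔ Rm x q a b := by
  unfold Rm
  rw [mo_iso h, σ.surjective.exists₂]
  simp only [pc_iso h, lt_iso h, h.2.1, σ.injective.eq_iff]

open Classical in
theorem em_iso {σ : Equiv.Perm ℕ} {x y : Z} (h : IsoZ σ x y) : IsoZ σ (Em x) (Em y) := by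
  refine ⟨h.1, fun n a b => ?_, h.2.2⟩
  rw [Bool.eq_iff_iff]
  show decide (Rm y (qe.symm n) (σ a) (σ b)) = true ↔
    decide (Rm x (qe.symm n) a b) = true
  rw [decide_eq_true_iff, decide_eq_true_iff, rm_iso h]

open Classical in
theorem dm_iso {σ : Equiv.Perm ℕ} {x y : Z} (h : IsoZ σ x y) : IsoZ σ (Dm x) (Dm y) := by
  refine ⟨h.1, fun n a b => ?_, h.2.2⟩
  rw [Bool.eq_iff_iff]
  show decide (Dr y n (σ a) (σ b)) = true ↔ decide (Dr x n a b) = true
  rw [decide_eq_true_iff, decide_eq_true_iff]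
  unfold Dr
  simp only [pc_iso h, h.2.1]

/-! ### Measurability -/

theorem z1 (m n : ℕ) : Measurable fun x : Z => x.1 m n = true := by
  have h : Measurable fun x : Z => x.1 m n :=
    (measurable_pi_apply n).comp ((measurable_pi_apply m).comp measurable_fst)
  exact measurableSet_setOfPred.1 (h (measurableSet_singleton true))

theorem z2 (i m n : ℕ) : Measurable fun x : Z => x.2.1 i m n = true := by
  have h : Measurable fun x : Z => x.2.1 i m n :=
    (measurable_pi_apply n).comp ((measurable_pi_apply m).comp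
      ((measurable_pi_apply i).comp (measurable_fst.comp measurable_snd)))
  exact measurableSet_setOfPred.1 (h (measurableSet_singleton true))

theorem z3 (i m : ℕ) : Measurable fun x : Z => x.2.2 i m = true := by
  have h : Measurable fun x : Z => x.2.2 i m :=
    (measurable_pi_apply m).comp ((measurable_pi_apply i).comp
      (measurable_snd.comp measurable_snd))
  exact measurableSet_setOfPred.1 (h (measurableSet_singleton true))

theorem m_pc (j a : ℕ) : Measurable fun x : Z => Pc x j a :=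
  (measurable_const (a := (j = 0))).or (z3 _ _)

theorem m_lt (δ : Bool) (a b : ℕ) : Measurable fun x : Z => lt' x δ a b := z1 _ _

theorem m_mo (i j k : ℕ) (δ ε : Bool) : Measurable fun x : Z => Mo x i j k δ ε :=
  (Measurable.forall fun a => Measurable.forall fun b => Measurable.forall fun c =>
    (m_pc j a).imp ((m_pc j b).imp ((m_pc k c).imp ((m_lt δ a b).imp
      ((z2 i a c).imp (z2 i b c)))))).and
  (Measurable.forall fun a => Measurable.forall fun b => Measurable.forall fun c =>
    (m_pc k a).imp ((m_pc k b).imp ((m_pc j c).imp ((m_lt ε a b).imp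
      ((z2 i c a).imp (z2 i c b))))))

theorem m_rm (q : Q5) (a b : ℕ) : Measurable fun x : Z => Rm x q a b :=
  (m_mo _ _ _ _ _).and (Measurable.exists fun a' => Measurable.exists fun b' =>
    (m_pc _ a').and ((m_pc _ b').and ((z2 _ a' b').and
      (((measurable_const (a := (a' = a))).or (m_lt _ a' a)).and
        ((measurable_const (a := (b' = b))).or (m_lt _ b' b))))))

theorem m_dr (i a b : ℕ) : Measurable fun x : Z => Dr x i a b :=
  Measurable.exists fun j => Measurable.exists fun k => Measurable.exists fun δ =>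
    Measurable.exists fun ε => (m_pc j a).and ((m_pc k b).and (z2 _ a b))

open Classical in
theorem m_dec {Ω : Type} [MeasurableSpace Ω] {p : Ω → Prop} (h : Measurable p) :
    Measurable fun ω => decide (p ω) := by
  refine measurable_to_bool ?_
  have : (fun ω => decide (p ω)) ⁻¹' {true} = {ω | p ω} := by
    ext ω
    simp
  rw [this]
  exact measurableSet_setOfPred.2 h

theorem m_em : Measurable Em :=
  measurable_fst.prodMk (Measurable.prodMk
    (measurable_pi_lambda _ fun n => measurable_pi_lambda _ fun a => measurable_pi_lambda _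
      fun b => m_dec (m_rm (qe.symm n) a b))
    (measurable_snd.comp measurable_snd))

theorem m_dm : Measurable Dm :=
  measurable_fst.prodMk (Measurable.prodMk
    (measurable_pi_lambda _ fun n => measurable_pi_lambda _ fun a => measurable_pi_lambda _
      fun b => m_dec (m_dr n a b))
    (measurable_snd.comp measurable_snd))

theorem m_fix : MeasurableSet {y : Z | Em (Dm y) = y} := by
  have e : {y : Z | Em (Dm y) = y} =
      {y | ∀ n a b, ((Em (Dm y)).2.1 n a b = true ↔ y.2.1 n a b = true)} := by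
    ext y
    constructor
    · intro h n a b
      have h' : Em (Dm y) = y := h
      rw [h']
    · intro h
      refine Prod.ext rfl (Prod.ext ?_ rfl)
      funext n a b
      rw [Bool.eq_iff_iff]
      exact h n a b
  rw [e]
  refine measurableSet_setOfPred.2 (Measurable.forall fun n => Measurable.forall fun a =>
    Measurable.forall fun b => ?_)
  exact (measurableSet_setOfPred.1 ((m_em.comp m_dm) (measurableSet_setOfPred.2 (z2 n a b)))).iff
    (z2 n a b)

/-- The theorem for piecewise monotone relations. -/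
theorem t_PMONO (hC : S_CMONO) : S_PMONO := by
  intro B hB hBM hBI
  have hA : MeasurableSet {y : Z | Dm y ∈ B ∧ Em (Dm y) = y} := (m_dm hB).inter m_fix
  have hAC : ∀ y ∈ {y : Z | Dm y ∈ B ∧ Em (Dm y) = y}, CM y := by
    rintro y ⟨h1, h2⟩
    rw [← h2]
    exact cm_em (hBM _ h1)
  have hAI : ∀ y ∈ {y : Z | Dm y ∈ B ∧ Em (Dm y) = y}, ∀ (y' : Z) (σ : Equiv.Perm ℕ),
      IsoZ σ y y' → y' ∈ {y : Z | Dm y ∈ B ∧ Em (Dm y) = y} := by
    rintro y ⟨h1, h2⟩ y' σ hσ
    refine ⟨hBI _ h1 _ σ (dm_iso hσ), ?_⟩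
    have h3 := em_iso (dm_iso hσ)
    rw [h2] at h3
    refine Prod.ext rfl (Prod.ext ?_ rfl)
    funext n a b
    obtain ⟨a, rfl⟩ := σ.surjective a
    obtain ⟨b, rfl⟩ := σ.surjective b
    rw [h3.2.1, hσ.2.1]
  rcases hC _ hA hAC hAI with ⟨f, hf⟩ | ⟨c, hc, hcA, hci⟩
  · left
    refine ⟨fun n => Dm (f n), fun x hx => ?_⟩
    have hx' : Em x ∈ {y : Z | Dm y ∈ B ∧ Em (Dm y) = y} := by
      refine ⟨?_, ?_⟩
      · rw [dm_em (hBM x hx)]; exact hx
      · rw [dm_em (hBM x hx)]
    obtain ⟨n, σ, hσ⟩ := hf _ hx'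
    refine ⟨n, σ, ?_⟩
    have h3 := dm_iso hσ
    rw [dm_em (hBM x hx)] at h3
    exact h3
  · right
    have hme : Measurable fun a => Dm (c a) := m_dm.comp hc.measurable
    obtain ⟨h', h1', h2'⟩ := Pool.Agent.H31R3.AL.cont_of_borel (fun a => Dm (c a)) hme
    refine ⟨_, h2', fun a => (hcA _).1, fun a b hab => ?_⟩
    apply h1'
    obtain ⟨τ, hτ⟩ := hab
    refine hci _ _ ⟨τ, ?_⟩
    have h3 := em_iso hτ
    have e1 := (hcA (h' a)).2
    have e2 := (hcA (h' b)).2
    simp only [Function.comp] at h3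
    rw [e1, e2] at h3
    exact h3

end Pool.Agent.Y566.MO
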