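import Pool.Agent.Y566.MO.AM

/-!
Project MO: perimeters in the Cayley graph of the free group are even.
-/

set_option autoImplicit false

namespace Pool.Agent.Y566.MO

/-- the sign -/
def sg : G →* ℤˣ := FreeGroup.lift fun _ => -1

theorem sg_mk (l : List (ℕ × Bool)) : sg (FreeGroup.mk l) = (-1) ^ l.length := by
  unfold sg
  rw [FreeGroup.lift_mk]
  induction l with
  | nil => simp
  | cons x l ih =>
    rw [List.map_cons, List.prod_cons, ih, List.length_cons, pow_succ', ]
    cases x.2 <;> simp

theorem sg_len (γ : G) : sg γ = (-1) ^ γ.toWord.length := by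
  rw [← sg_mk, FreeGroup.mk_toWord]

theorem sg_dG (u v : G) : sg u * sg v = (-1) ^ dG u v := by
  unfold dG
  rw [← sg_len, map_mul, map_inv, Int.units_inv_eq_self]

theorem ev_dG : EV dG := by
  intro u v w
  have h1 := sg_dG u v
  have h2 := sg_dG v w
  have h3 := sg_dG w u
  have h : (-1 : ℤˣ) ^ (dG u v + dG v w + dG w u) = 1 := by
    rw [pow_add, pow_add, ← h1, ← h2, ← h3]
    rcases Int.units_eq_one_or (sg u) with a | a <;> rcases Int.units_eq_one_or (sg v) with b | b <;>
      rcases Int.units_eq_one_or (sg w) with c | c <;> rw [a, b, c] <;> simp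
  by_contra hne
  have ho : Odd (dG u v + dG v w + dG w u) := Nat.odd_iff.2 (by omega)
  rw [ho.neg_one_pow] at h
  exact absurd h (by decide)

theorem dG_mul (w u v : G) : dG (w * u) (w * v) = dG u v := by
  unfold dG
  rw [show (w * u)⁻¹ * (w * v) = u⁻¹ * v by group]

theorem chi_of (i : ℕ) : chi (FreeGroup.of i) = if i % 2 = 0 then 1 else -1 := by
  unfold chi
  rw [FreeGroup.lift_apply_of]

theorem of_mul_ne (u : G) (i j : ℕ) : u * FreeGroup.of i * FreeGroup.of j ≠ u := by
  intro h
  have h1 : FreeGroup.of i = (FreeGroup.of j)⁻¹ := by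
    have : FreeGroup.of i * FreeGroup.of j = 1 := by
      have h2 : u * (FreeGroup.of i * FreeGroup.of j) = u * 1 := by rw [← mul_assoc, h, mul_one]
      exact mul_left_cancel h2
    exact eq_inv_of_mul_eq_one_left this
  have h2 := congrArg FreeGroup.toWord h1
  rw [FreeGroup.toWord_inv, FreeGroup.toWord_of, FreeGroup.toWord_of] at h2
  simp [FreeGroup.invRev] at h2

theorem of_ne_one (i : ℕ) : (FreeGroup.of i : G) ≠ 1 := by
  intro h
  have h2 := congrArg FreeGroup.toWord h
  rw [FreeGroup.toWord_of, FreeGroup.toWord_one] at h2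
  simp at h2

end Pool.Agent.Y566.MO
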