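import Pool.Agent.Y566.MO.Par

/-!
Project MO: existence of a code.
-/

set_option autoImplicit false

namespace Pool.Agent.Y566.MO

open Pool.Agent.H566P (XG Isom)

/-- the relation on the chains at distance at most one -/
def EE (x : Z) (a b : G × ℕ) : Prop :=
  (a.1 = b.1 ∧ ((chi a.1 = 1 ∧ x.1 a.2 b.2 = true) ∨ (chi a.1 = -1 ∧ x.1 b.2 a.2 = true))) ∨
  (∃ i, b.1 = a.1 * FreeGroup.of i ∧ (chi a.1 = 1 ↔ x.2.1 i a.2 b.2 = true)) ∨
  ∃ i, a.1 = b.1 * FreeGroup.of i ∧ ¬ (chi b.1 = 1 ↔ x.2.1 i b.2 a.2 = true)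

theorem one_ne_neg : (1 : ℤˣ) ≠ -1 := by decide

theorem EE_same {x : Z} {u : G} {a b : ℕ} : EE x (u, a) (u, b) ↔
    ((chi u = 1 ∧ x.1 a b = true) ∨ (chi u = -1 ∧ x.1 b a = true)) := by
  unfold EE
  constructor
  · rintro (⟨-, h⟩ | ⟨i, h, -⟩ | ⟨i, h, -⟩)
    · exact h
    · exact absurd (mul_left_cancel (a := u) (by rw [mul_one]; exact h.symm)) (of_ne_one i)
    · exact absurd (mul_left_cancel (a := u) (by rw [mul_one]; exact h.symm)) (of_ne_one i)
  · exact fun h => Or.inl ⟨rfl, h⟩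

theorem EE_up {x : Z} {u : G} {i a b : ℕ} : EE x (u, a) (u * FreeGroup.of i, b) ↔
    (chi u = 1 ↔ x.2.1 i a b = true) := by
  unfold EE
  constructor
  · rintro (⟨h, -⟩ | ⟨j, h, h'⟩ | ⟨j, h, -⟩)
    · exact absurd (mul_left_cancel (a := u) (by rw [mul_one]; exact h.symm)) (of_ne_one i)
    · have : i = j := FreeGroup.of_injective (mul_left_cancel h)
      subst this
      exact h'
    · exact absurd h.symm (of_mul_ne u i j)
  · exact fun h => Or.inr (Or.inl ⟨i, rfl, h⟩)

theorem EE_down {x : Z} {u : G} {i a b : ℕ} : EE x (u * FreeGroup.of i, a) (u, b) ↔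
    ¬ (chi u = 1 ↔ x.2.1 i b a = true) := by
  unfold EE
  constructor
  · rintro (⟨h, -⟩ | ⟨j, h, -⟩ | ⟨j, h, h'⟩)
    · exact absurd (mul_left_cancel (a := u) (by rw [mul_one]; exact h)) (of_ne_one i)
    · exact absurd h.symm (of_mul_ne u i j)
    · have : i = j := FreeGroup.of_injective (mul_left_cancel h)
      subst this
      exact h'
  · exact fun h => Or.inr (Or.inr ⟨i, rfl, h⟩)

/-- elements at distance at most one -/
theorem near_cases (hF : S_FM) {u v : G} (h : dG u v ≤ 1) :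
    u = v ∨ (∃ i, v = u * FreeGroup.of i) ∨ ∃ i, u = v * FreeGroup.of i := by
  obtain ⟨hT, -, h1⟩ := hF
  rcases Nat.lt_or_ge (dG u v) 1 with h0 | h0
  · exact Or.inl ((hT.zero u v).1 (by omega))
  · have e : dG 1 (u⁻¹ * v) = 1 := by
      rw [← dG_mul u 1 (u⁻¹ * v), mul_one, ← mul_assoc, mul_inv_cancel, one_mul]
      omega
    obtain ⟨i, hi | hi⟩ := (h1 _).1 e
    · exact Or.inr (Or.inl ⟨i, by rw [← hi]; group⟩)
    · refine Or.inr (Or.inr ⟨i, ?_⟩)
      have : v = u * (FreeGroup.of i)⁻¹ := by rw [← hi]; group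
      rw [this]
      group

theorem chi_cases (u : G) : chi u = 1 ∨ chi u = -1 := Int.units_eq_one_or _

theorem BD_EE (hF : S_FM) {x : Z} (hx : MT x) : BD dG Prod.fst (EE x) := by
  have asy : ∀ m n, x.1 m n = true → x.1 n m = false := by
    intro m n h
    by_contra h'
    have h1 := hx.tr m n m h (by simpa using h')
    rw [hx.irr] at h1
    exact absurd h1 (by simp)
  have anti : ∀ a b : G × ℕ, dG a.1 b.1 ≤ 1 → a ≠ b → (EE x a b ↔ ¬ EE x b a) := by
    rintro ⟨u, a⟩ ⟨v, b⟩ hd hne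
    rcases near_cases hF (u := u) (v := v) hd with rfl | ⟨i, rfl⟩ | ⟨i, rfl⟩
    · have hab : a ≠ b := fun e => hne (by rw [e])
      rw [EE_same, EE_same]
      rcases chi_cases u with h | h <;> rcases hx.tot a b hab with h' | h' <;>
        have h2 := asy _ _ h' <;> simp [h, h', h2]
    · rw [EE_up, EE_down, not_not]
    · rw [EE_up, EE_down]
  -- two points in one chain
  have two : ∀ (u w : G) (a b c : ℕ), dG u w ≤ 1 → EE x (u, a) (u, b) → EE x (u, b) (w, c) →
      ¬ EE x (w, c) (u, a) := by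
    intro u w a b c hd h1 h2 h3
    rw [EE_same] at h1
    rcases near_cases hF hd with rfl | ⟨i, rfl⟩ | ⟨i, rfl⟩
    · rw [EE_same] at h2 h3
      rcases chi_cases u with h | h
      · simp only [h, true_and, one_ne_neg, false_and, or_false] at h1 h2 h3
        have h4 := hx.tr _ _ _ (hx.tr _ _ _ h1 h2) h3
        rw [hx.irr] at h4
        exact absurd h4 (by simp)
      · simp only [h, true_and, one_ne_neg.symm, false_and, false_or] at h1 h2 h3
        have h4 := hx.tr _ _ _ (hx.tr _ _ _ h3 h2) h1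
        rw [hx.irr] at h4
        exact absurd h4 (by simp)
    · rw [EE_up] at h2
      rw [EE_down] at h3
      rcases chi_cases u with h | h
      · simp only [h, true_and, one_ne_neg, false_and, or_false, true_iff] at h1 h2 h3
        exact h3 (hx.left i _ _ _ h1 h2)
      · simp only [h, true_and, one_ne_neg.symm, false_and, false_or, false_iff] at h1 h2 h3
        rw [not_not] at h3
        exact h2 (hx.left i _ _ _ h1 h3)
    · rw [EE_down] at h2
      rw [EE_up] at h3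
      have hc : chi (w * FreeGroup.of i) = chi w * if i % 2 = 0 then 1 else -1 := by
        rw [map_mul, chi_of]
      rcases Nat.mod_two_eq_zero_or_one i with hi | hi
      · rw [if_pos hi, mul_one] at hc
        rcases chi_cases w with h | h
        · rw [hc, h] at h1
          simp only [h, true_and, one_ne_neg, false_and, or_false, true_iff] at h1 h2 h3
          exact h2 (hx.right0 i _ _ _ hi h1 h3)
        · rw [hc, h] at h1
          simp only [h, true_and, one_ne_neg.symm, false_and, false_or, false_iff] at h1 h2 h3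
          rw [not_not] at h2
          exact h3 (hx.right0 i _ _ _ hi h1 h2)
      · rw [if_neg (by omega)] at hc
        rcases chi_cases w with h | h
        · rw [hc, h, one_mul] at h1
          simp only [h, true_and, one_ne_neg.symm, false_and, false_or, true_iff] at h1 h2 h3
          exact h2 (hx.right1 i _ _ _ hi h1 h3)
        · rw [hc, h, neg_mul_neg, one_mul] at h1
          simp only [h, true_and, one_ne_neg, one_ne_neg.symm, false_and, or_false,
            false_iff] at h1 h2 h3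
          rw [not_not] at h2
          exact h3 (hx.right1 i _ _ _ hi h1 h2)
  refine ⟨?_, anti, ?_⟩
  · rintro ⟨u, a⟩ h
    rw [EE_same] at h
    rcases h with ⟨-, h⟩ | ⟨-, h⟩ <;> rw [hx.irr] at h <;> exact absurd h (by simp)
  · rintro ⟨u, a⟩ ⟨v, b⟩ ⟨w, c⟩ h1 h2 h3 h4 h5 h6
    simp only at h1 h2 h3
    by_cases e1 : u = v
    · subst e1
      exact two u w a b c h3 h4 h5 h6
    by_cases e2 : v = w
    · subst e2
      exact two v u b c a (by rw [hF.1.symm]; exact h1) h5 h6 h4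
    by_cases e3 : w = u
    · subst e3
      exact two w v c a b h1 h6 h4 h5
    have z1 : dG u v ≠ 0 := fun e => e1 ((hF.1.zero _ _).1 e)
    have z2 : dG v w ≠ 0 := fun e => e2 ((hF.1.zero _ _).1 e)
    have z3 : dG u w ≠ 0 := fun e => e3 ((hF.1.zero _ _).1 e).symm
    exact hF.2.1 u v w (by omega) (by omega) (by omega)

theorem EE_pos {x : Z} {w : G} (hw : chi w = 1) (a b : G × ℕ) :
    EE x (w * a.1, a.2) (w * b.1, b.2) ↔ EE x a b := by
  unfold EE
  simp only [map_mul, hw, one_mul, mul_right_inj, mul_assoc]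

theorem neg_eq_one {u : G} : -chi u = 1 ↔ ¬ chi u = 1 := by
  rcases chi_cases u with h | h <;> rw [h] <;> decide

theorem EE_neg {x : Z} {w : G} (hw : chi w = -1) (a b : G × ℕ) :
    EE x (w * a.1, a.2) (w * b.1, b.2) ↔ EE x b a := by
  unfold EE
  simp only [map_mul, hw, neg_mul, one_mul, mul_right_inj, mul_assoc]
  constructor
  · rintro (⟨h, h'⟩ | ⟨i, h, h'⟩ | ⟨i, h, h'⟩)
    · refine Or.inl ⟨h.symm, ?_⟩
      rw [← h]
      rcases h' with ⟨h1, h2⟩ | ⟨h1, h2⟩
      · exact Or.inr ⟨by rw [← h1, neg_neg], h2⟩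
      · exact Or.inl ⟨neg_injective h1, h2⟩
    · refine Or.inr (Or.inr ⟨i, h, ?_⟩)
      rw [neg_eq_one] at h'
      tauto
    · refine Or.inr (Or.inl ⟨i, h, ?_⟩)
      rw [neg_eq_one] at h'
      tauto
  · rintro (⟨h, h'⟩ | ⟨i, h, h'⟩ | ⟨i, h, h'⟩)
    · refine Or.inl ⟨h.symm, ?_⟩
      rw [← h]
      rcases h' with ⟨h1, h2⟩ | ⟨h1, h2⟩
      · exact Or.inr ⟨by rw [h1], h2⟩
      · exact Or.inl ⟨by rw [h1, neg_neg], h2⟩
    · refine Or.inr (Or.inr ⟨i, h, ?_⟩)
      rw [neg_eq_one]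
      tauto
    · refine Or.inr (Or.inl ⟨i, h, ?_⟩)
      rw [neg_eq_one]
      tauto

theorem Btw_mul {w u m v : G} : Btw dG (w * u) (w * m) (w * v) ↔ Btw dG u m v := by
  unfold Btw
  rw [dG_mul, dG_mul, dG_mul]
  simp only [ne_eq, mul_right_inj]

/-- equivariance of the order -/
theorem L_equi (hT : TM dG) {s : G → G → Prop} {x : Z}
    (hs1 : ∀ w u v, chi w = 1 → (s (w * u) (w * v) ↔ s u v))
    (hs2 : ∀ w u v, chi w = -1 → (s (w * u) (w * v) ↔ s v u))
    {L : G × ℕ → G × ℕ → Prop} (hL : TR dG Prod.fst s (EE x) L) (w : G) (a b : G × ℕ) :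
    (chi w = 1 → (L (w * a.1, a.2) (w * b.1, b.2) ↔ L a b)) ∧
    (chi w = -1 → (L (w * b.1, b.2) (w * a.1, a.2) ↔ L a b)) := by
  have hsur : ∀ c : G × ℕ, ∃ c' : G × ℕ, c = (w * c'.1, c'.2) := fun c =>
    ⟨(w⁻¹ * c.1, c.2), by
      rw [← mul_assoc, mul_inv_cancel, one_mul]⟩
  constructor
  · intro hw
    refine (t_UN _ _ dG Prod.fst s (EE x) (fun a b => L (w * a.1, a.2) (w * b.1, b.2)) L hT
      ⟨?_, ?_⟩ hL a b)
    · intro a b h
      show L (w * a.1, a.2) (w * b.1, b.2) ↔ EE x a b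
      rw [hL.near _ _ (by rw [dG_mul]; exact h), EE_pos hw]
    · intro a b h
      show L (w * a.1, a.2) (w * b.1, b.2) ↔ _
      rw [hL.far _ _ (by rw [dG_mul]; exact h)]
      show (∃ c : G × ℕ, Btw dG (w * a.1) c.1 (w * b.1) ∧ _) ∨ (s (w * a.1) (w * b.1) ∧
        ¬ ∃ c : G × ℕ, Btw dG (w * a.1) c.1 (w * b.1) ∧ _) ↔ _
      rw [hs1 w _ _ hw]
      refine or_congr ?_ (and_congr Iff.rfl (not_congr ?_))
      · constructor
        · rintro ⟨c, h1, h2, h3⟩
          obtain ⟨c', rfl⟩ := hsur c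
          exact ⟨c', Btw_mul.1 h1, h2, h3⟩
        · rintro ⟨c, h1, h2, h3⟩
          exact ⟨(w * c.1, c.2), Btw_mul.2 h1, h2, h3⟩
      · constructor
        · rintro ⟨c, h1, h2, h3⟩
          obtain ⟨c', rfl⟩ := hsur c
          exact ⟨c', Btw_mul.1 h1, h2, h3⟩
        · rintro ⟨c, h1, h2, h3⟩
          exact ⟨(w * c.1, c.2), Btw_mul.2 h1, h2, h3⟩
  · intro hw
    refine (t_UN _ _ dG Prod.fst s (EE x) (fun a b => L (w * b.1, b.2) (w * a.1, a.2)) L hT
      ⟨?_, ?_⟩ hL a b)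
    · intro a b h
      show L (w * b.1, b.2) (w * a.1, a.2) ↔ EE x a b
      rw [hL.near _ _ (by rw [dG_mul, hT.symm]; exact h), EE_neg hw]
    · intro a b h
      show L (w * b.1, b.2) (w * a.1, a.2) ↔ _
      rw [hL.far _ _ (by rw [dG_mul, hT.symm]; exact h)]
      show (∃ c : G × ℕ, Btw dG (w * b.1) c.1 (w * a.1) ∧ _) ∨ (s (w * b.1) (w * a.1) ∧
        ¬ ∃ c : G × ℕ, Btw dG (w * b.1) c.1 (w * a.1) ∧ _) ↔ _
      rw [hs2 w _ _ hw]
      refine or_congr ?_ (and_congr Iff.rfl (not_congr ?_))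
      · constructor
        · rintro ⟨c, h1, h2, h3⟩
          obtain ⟨c', rfl⟩ := hsur c
          exact ⟨c', (Btw_mul.1 h1).symm hT, h3, h2⟩
        · rintro ⟨c, h1, h2, h3⟩
          exact ⟨(w * c.1, c.2), Btw_mul.2 (h1.symm hT), h3, h2⟩
      · constructor
        · rintro ⟨c, h1, h2, h3⟩
          obtain ⟨c', rfl⟩ := hsur c
          exact ⟨c', (Btw_mul.1 h1).symm hT, h3, h2⟩
        · rintro ⟨c, h1, h2, h3⟩
          exact ⟨(w * c.1, c.2), Btw_mul.2 (h1.symm hT), h3, h2⟩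

end Pool.Agent.Y566.MO
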