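import Pool.Agent.Y560.TH.Cst2

/-!
Project MO: linear orders with countably many monotone or antitone relations. Statements.
-/

set_option autoImplicit false

namespace Pool.Agent.Y566.MO

open Set MeasureTheory
open Pool.Agent.H566P (XG Isom)
open Pool.Agent.Y560.TH (RV S_REV)

/-! ### Trees of chains -/

/-- `w` is strictly between `u` and `v` -/
def Btw {V : Type} (d : V → V → ℕ) (u w v : V) : Prop := d u v = d u w + d w v ∧ w ≠ u ∧ w ≠ v

/-- tree metrics: the four point condition -/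
structure TM {V : Type} (d : V → V → ℕ) : Prop where
  zero : ∀ u v, d u v = 0 ↔ u = v
  symm : ∀ u v, d u v = d v u
  four : ∀ u v x y, d x y + d u v ≤ max (d x u + d y v) (d x v + d y u)

/-- The sign relation: a choice of a direction for every pair, without cycles on the triples none
of which is between the two others. -/
structure SG {V : Type} (d : V → V → ℕ) (s : V → V → Prop) : Prop where
  anti : ∀ u v, u ≠ v → (s u v ↔ ¬ s v u)
  acyc : ∀ u v w, d u v < d u w + d w v → d v w < d v u + d u w → d u w < d u v + d v w →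
    s u v → s v w → ¬ s w u

/-- `E` is a linear order on each chain and on the union of two neighbouring chains. -/
structure BD {V X : Type} (d : V → V → ℕ) (p : X → V) (E : X → X → Prop) : Prop where
  irr : ∀ a, ¬ E a a
  anti : ∀ a b, d (p a) (p b) ≤ 1 → a ≠ b → (E a b ↔ ¬ E b a)
  acyc : ∀ a b c, d (p a) (p b) ≤ 1 → d (p b) (p c) ≤ 1 → d (p a) (p c) ≤ 1 →
    E a b → E b c → ¬ E c a

/-- `L` is the order of the tree of chains: it extends `E`, and points of chains at distance at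
least `2` are compared by means of the points of the chains strictly between, or by the sign. -/
structure TR {V X : Type} (d : V → V → ℕ) (p : X → V) (s : V → V → Prop) (E : X → X → Prop)
    (L : X → X → Prop) : Prop where
  near : ∀ a b, d (p a) (p b) ≤ 1 → (L a b ↔ E a b)
  far : ∀ a b, 2 ≤ d (p a) (p b) → (L a b ↔
    (∃ c, Btw d (p a) (p c) (p b) ∧ L a c ∧ L c b) ∨
    (s (p a) (p b) ∧ ¬ ∃ c, Btw d (p a) (p c) (p b) ∧ L b c ∧ L c a))

/-- MO-AM: the amalgamation -/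
def S_AM : Prop := ∀ (V X : Type) (d : V → V → ℕ) (p : X → V) (s : V → V → Prop)
  (E : X → X → Prop), TM d → SG d s → BD d p E →
  ∃ L, TR d p s E L ∧ (∀ a, ¬ L a a) ∧ (∀ a b c, L a b → L b c → L a c) ∧
    ∀ a b, a ≠ b → L a b ∨ L b a

/-- MO-UN: uniqueness -/
def S_UN : Prop := ∀ (V X : Type) (d : V → V → ℕ) (p : X → V) (s : V → V → Prop)
  (E L L' : X → X → Prop), TM d → TR d p s E L → TR d p s E L' → ∀ a b, L a b ↔ L' a b

/-! ### The free group -/

/-- the group -/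
abbrev G : Type := FreeGroup ℕ

/-- the distance in the Cayley graph -/
def dG (u v : G) : ℕ := (u⁻¹ * v).toWord.length

/-- the generators with even number will preserve the order, those with odd number reverse it -/
def chi : G →* ℤˣ := FreeGroup.lift fun i => if i % 2 = 0 then 1 else -1

/-- MO-FM: the Cayley graph is a tree -/
def S_FM : Prop := TM dG ∧ (∀ u v w : G, dG u v = 1 → dG v w = 1 → dG u w ≠ 1) ∧
  (∀ γ : G, dG 1 γ = 1 ↔ ∃ i, γ = FreeGroup.of i ∨ γ = (FreeGroup.of i)⁻¹)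

/-- MO-FS: an equivariant sign relation -/
def S_FS : Prop := ∃ s : G → G → Prop, SG dG s ∧
  (∀ w u v, chi w = 1 → (s (w * u) (w * v) ↔ s u v)) ∧
  (∀ w u v, chi w = -1 → (s (w * u) (w * v) ↔ s v u))

/-! ### Structures with monotone relations -/

/-- structures on `ℕ` with binary relations `x.1`, `x.2.1 i` and unary predicates `x.2.2 i` -/
abbrev Z : Type := (ℕ → ℕ → Bool) × (ℕ → ℕ → ℕ → Bool) × (ℕ → ℕ → Bool)

/-- `σ` is an isomorphism from `x` to `y` -/
def IsoZ (σ : Equiv.Perm ℕ) (x y : Z) : Prop :=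
  (∀ m n, y.1 (σ m) (σ n) = x.1 m n) ∧ (∀ i m n, y.2.1 i (σ m) (σ n) = x.2.1 i m n) ∧
    ∀ i m, y.2.2 i (σ m) = x.2.2 i m

/-- normal form: all relations are decreasing in the first argument; the relations with an even
number are increasing in the second argument, the others are decreasing -/
structure MT (x : Z) : Prop where
  irr : ∀ m, x.1 m m = false
  tr : ∀ m n k, x.1 m n = true → x.1 n k = true → x.1 m k = true
  tot : ∀ m n, m ≠ n → x.1 m n = true ∨ x.1 n m = true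
  left : ∀ i a b c, x.1 a b = true → x.2.1 i b c = true → x.2.1 i a c = true
  right0 : ∀ i a b c, i % 2 = 0 → x.1 b c = true → x.2.1 i a b = true → x.2.1 i a c = true
  right1 : ∀ i a b c, i % 2 = 1 → x.1 b c = true → x.2.1 i a c = true → x.2.1 i a b = true

/-- the theorem for structures in normal form -/
def S_MONO : Prop := ∀ B : Set Z, MeasurableSet B → (∀ x ∈ B, MT x) →
  (∀ x ∈ B, ∀ (y : Z) (σ : Equiv.Perm ℕ), IsoZ σ x y → y ∈ B) →
  (∃ f : ℕ → Z, ∀ x ∈ B, ∃ n, ∃ σ : Equiv.Perm ℕ, IsoZ σ (f n) x) ∨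
  (∃ c : (ℕ → Bool) → Z, Continuous c ∧ (∀ A, c A ∈ B) ∧
    ∀ A A', (∃ σ : Equiv.Perm ℕ, IsoZ σ (c A) (c A')) → A = A')

/-- linear orders with relations which are monotone in each argument -/
structure CM (x : Z) : Prop where
  irr : ∀ m, x.1 m m = false
  tr : ∀ m n k, x.1 m n = true → x.1 n k = true → x.1 m k = true
  tot : ∀ m n, m ≠ n → x.1 m n = true ∨ x.1 n m = true
  fst : ∀ i, (∀ a b c, x.1 a b = true → x.2.1 i a c = true → x.2.1 i b c = true) ∨
    (∀ a b c, x.1 a b = true → x.2.1 i b c = true → x.2.1 i a c = true)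
  snd : ∀ i, (∀ a b c, x.1 b c = true → x.2.1 i a b = true → x.2.1 i a c = true) ∨
    (∀ a b c, x.1 b c = true → x.2.1 i a c = true → x.2.1 i a b = true)

/-- the theorem -/
def S_CMONO : Prop := ∀ B : Set Z, MeasurableSet B → (∀ x ∈ B, CM x) →
  (∀ x ∈ B, ∀ (y : Z) (σ : Equiv.Perm ℕ), IsoZ σ x y → y ∈ B) →
  (∃ f : ℕ → Z, ∀ x ∈ B, ∃ n, ∃ σ : Equiv.Perm ℕ, IsoZ σ (f n) x) ∨
  (∃ c : (ℕ → Bool) → Z, Continuous c ∧ (∀ A, c A ∈ B) ∧
    ∀ A A', (∃ σ : Equiv.Perm ℕ, IsoZ σ (c A) (c A')) → A = A')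

/-- MO-ENC -/
def S_ENC : Prop := S_MONO → S_CMONO

/-! ### Codes -/

/-- `y` is the free `G`-structure over its fundamental domain `y.2.2 0` -/
structure CD (s : G → G → Prop) (y : XG G) : Prop where
  irr : ∀ m, y.1 m m = false
  tr : ∀ m n k, y.1 m n = true → y.1 n k = true → y.1 m k = true
  tot : ∀ m n, m ≠ n → y.1 m n = true ∨ y.1 n m = true
  one : ∀ m, y.2.1 1 m = m
  mul : ∀ γ δ m, y.2.1 (γ * δ) m = y.2.1 γ (y.2.1 δ m)
  pos : ∀ γ m n, chi γ = 1 → y.1 m n = true → y.1 (y.2.1 γ m) (y.2.1 γ n) = true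
  neg : ∀ γ m n, chi γ = -1 → y.1 m n = true → y.1 (y.2.1 γ n) (y.2.1 γ m) = true
  inf : {m | y.2.2 0 m = true}.Infinite
  dom : ∀ m, ∃ γ u, y.2.2 0 u = true ∧ y.2.1 γ u = m
  free : ∀ γ u v, y.2.2 0 u = true → y.2.2 0 v = true → y.2.1 γ u = v → γ = 1
  pred : ∀ i m, y.2.2 (i + 1) m = true → y.2.2 0 m = true
  tie : ∀ γ u v, y.2.2 0 u = true → y.2.2 0 v = true → 2 ≤ dG 1 γ →
    (y.1 u (y.2.1 γ v) = true ↔
      (∃ δ w, Btw dG 1 δ γ ∧ y.2.2 0 w = true ∧ y.1 u (y.2.1 δ w) = true ∧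
        y.1 (y.2.1 δ w) (y.2.1 γ v) = true) ∨
      (s 1 γ ∧ ¬ ∃ δ w, Btw dG 1 δ γ ∧ y.2.2 0 w = true ∧ y.1 (y.2.1 γ v) (y.2.1 δ w) = true ∧
        y.1 (y.2.1 δ w) u = true))

/-- the enumeration of the fundamental domain -/
noncomputable def en (y : XG G) (n : ℕ) : ℕ := Nat.nth (fun m => y.2.2 0 m = true) n

/-- the structure on the fundamental domain -/
noncomputable def rd (y : XG G) : Z :=
  (fun m n => y.1 (en y m) (en y n),
    fun i m n => y.1 (en y m) (y.2.1 (FreeGroup.of i) (en y n)),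
    fun i m => y.2.2 (i + 1) (en y m))

/-- MO-MEAS -/
def S_MEAS : Prop := Measurable rd ∧ ∀ s, MeasurableSet {y : XG G | CD s y}

/-- MO-RI: invariance of the reduct, and uniqueness of the code of a structure -/
def S_RI : Prop :=
  (∀ s y (y' : XG G) (σ : Equiv.Perm ℕ), CD s y → Isom σ y y' →
    CD s y' ∧ ∃ τ, IsoZ τ (rd y) (rd y')) ∧
  (∀ s (y y' : XG G) (τ : Equiv.Perm ℕ), CD s y → CD s y' → IsoZ τ (rd y) (rd y') →
    ∃ σ, Isom σ y y')

/-- MO-RX: existence of a code -/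
def S_RX : Prop := ∀ s : G → G → Prop, SG dG s →
  (∀ w u v, chi w = 1 → (s (w * u) (w * v) ↔ s u v)) →
  (∀ w u v, chi w = -1 → (s (w * u) (w * v) ↔ s v u)) →
  ∀ x : Z, MT x → ∃ y, CD s y ∧ ∃ τ, IsoZ τ (rd y) x

end Pool.Agent.Y566.MO
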